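import Pool.Agent.L7h93.TH.Stm

/-! [DUAL] of project TH (helper93): dual polynomials. -/

set_option autoImplicit false

namespace Pool.Agent.L7h21.TH

open Pool.Agent.L7h93.TH Finset

theorem exists_dual {g N : ℕ} {S : Type} [Fintype S] [DecidableEq S]
    (A : S → MvPolynomial (Fin g) ℂ →ₗ[ℂ] ℂ)
    (hA : ∀ c : S → ℂ, (∀ P : MvPolynomial (Fin g) ℂ, P.totalDegree ≤ N →
      ∑ σ, c σ * A σ P = 0) → c = 0) :
    ∃ PP : S → MvPolynomial (Fin g) ℂ, (∀ τ, (PP τ).totalDegree ≤ N) ∧
      ∀ σ τ, A σ (PP τ) = if σ = τ then 1 else 0 := by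
  have htop : LinearMap.range ((LinearMap.pi A).domRestrict
      (MvPolynomial.restrictTotalDegree (Fin g) ℂ N)) = ⊤ := by
    by_contra hne
    obtain ⟨f, hf0, hf⟩ := Submodule.exists_le_ker_of_lt_top _ (lt_top_iff_ne_top.2 hne)
    have hfx : ∀ v : S → ℂ, f v = ∑ σ, f (Pi.single σ 1) * v σ := by
      intro v
      conv_lhs => rw [← Finset.univ_sum_single v]
      rw [map_sum]
      refine Finset.sum_congr rfl fun σ _ => ?_
      have : (Pi.single σ (v σ) : S → ℂ) = v σ • Pi.single σ 1 := by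
        rw [← Pi.single_smul, smul_eq_mul, mul_one]
      rw [this, map_smul, smul_eq_mul, mul_comm]
    have h0 := hA (fun σ => f (Pi.single σ 1)) (fun P hP => by
      have h1 : LinearMap.pi A P ∈ LinearMap.ker f := by
        apply hf
        exact ⟨⟨P, (MvPolynomial.mem_restrictTotalDegree _ _ _).2 hP⟩, rfl⟩
      rw [LinearMap.mem_ker, hfx] at h1
      simpa using h1)
    apply hf0
    apply LinearMap.ext
    intro v
    rw [hfx, LinearMap.zero_apply]
    refine Finset.sum_eq_zero fun σ _ => ?_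
    rw [show f (Pi.single σ 1) = 0 from congrFun h0 σ, zero_mul]
  have h1 : ∀ τ : S, ∃ P : MvPolynomial (Fin g) ℂ, P.totalDegree ≤ N ∧
      ∀ σ, A σ P = if σ = τ then 1 else 0 := by
    intro τ
    have h2 : (fun σ => if σ = τ then (1 : ℂ) else 0) ∈ LinearMap.range ((LinearMap.pi A).domRestrict
      (MvPolynomial.restrictTotalDegree (Fin g) ℂ N)) := by rw [htop]; trivial
    obtain ⟨⟨P, hP⟩, h3⟩ := h2
    refine ⟨P, (MvPolynomial.mem_restrictTotalDegree _ _ _).1 hP, fun σ => ?_⟩
    exact congrFun h3 σ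
  choose PP h2 h3 using h1
  exact ⟨PP, h2, fun σ τ => h3 τ σ⟩

theorem s_DUAL : S_DUAL := by
  classical
  intro g N S _ A B A' B' hA hB hAB
  obtain ⟨PP, hP, hPA⟩ := exists_dual A hA
  obtain ⟨RR, hR, hRB⟩ := exists_dual B hB
  refine ⟨PP, RR, hP, hR, fun P R => ?_, fun P R => ?_⟩
  · refine Finset.sum_congr rfl fun τ _ => ?_
    congr 1
    · rw [Finset.sum_eq_single τ]
      · rw [hRB, if_pos rfl, mul_one]
      · intro b _ hb
        rw [hRB, if_neg hb, mul_zero]
      · intro h; exact absurd (Finset.mem_univ _) h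
    · rw [Finset.sum_eq_single τ]
      · rw [hPA, if_pos rfl, one_mul]
      · intro b _ hb
        rw [hPA, if_neg hb, zero_mul]
      · intro h; exact absurd (Finset.mem_univ _) h
  · set Mx : Matrix S S ℂ := Matrix.of fun τ σ => A' σ (PP τ) with hMx
    set My : Matrix S S ℂ := Matrix.of fun σ τ => B' σ (RR τ) with hMy
    have h1 : Mx * My = 1 := by
      ext τ τ'
      rw [Matrix.mul_apply]
      simp only [hMx, hMy, Matrix.of_apply]
      rw [hAB _ _ (hP τ) (hR τ'), Finset.sum_eq_single τ]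
      · rw [hPA, if_pos rfl, one_mul, hRB, Matrix.one_apply]
      · intro b _ hb
        rw [hPA, if_neg hb, zero_mul]
      · intro h; exact absurd (Finset.mem_univ _) h
    have h2 : My * Mx = 1 := mul_eq_one_comm.1 h1
    have h3 : ∀ σ σ', ∑ τ, B' σ (RR τ) * A' σ' (PP τ) = if σ = σ' then (1 : ℂ) else 0 := by
      intro σ σ'
      have := congrFun (congrFun h2 σ) σ'
      rw [Matrix.mul_apply, Matrix.one_apply] at this
      exact this
    have h4 : ∑ τ, (∑ σ, A' σ P * B' σ (RR τ)) * ∑ σ, A' σ (PP τ) * B' σ R =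
        ∑ σ, ∑ σ', (A' σ P * B' σ' R) * ∑ τ, B' σ (RR τ) * A' σ' (PP τ) := by
      simp_rw [Finset.sum_mul_sum, Finset.mul_sum]
      rw [Finset.sum_comm]
      refine Finset.sum_congr rfl fun σ _ => ?_
      rw [Finset.sum_comm]
      refine Finset.sum_congr rfl fun σ' _ => ?_
      refine Finset.sum_congr rfl fun τ _ => ?_
      ring
    rw [h4]
    refine Finset.sum_congr rfl fun σ _ => ?_
    rw [Finset.sum_eq_single σ]
    · rw [h3, if_pos rfl, mul_one]
    · intro b _ hb
      rw [h3, if_neg (Ne.symm hb), mul_zero]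
    · intro h; exact absurd (Finset.mem_univ _) h

end Pool.Agent.L7h21.TH
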