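import Pool.Agent.L7h21.TH.Tay

/-! [IDP] of project TH (helper93): independence of the functionals of the residue classes. -/

set_option autoImplicit false

namespace Pool.Agent.L7h21.TH

open Pool.Agent.L7h93.TH Finset

variable {g : ℕ}

/-- the residue class -/
def rc (s : Lat g) : Fin g → ZMod 2 := fun i => ((s i : ℤ) : ZMod 2)

theorem rc_add (s k : Lat g) : rc (s + ((2 : ℕ) : ℤ) • k) = rc s := by
  funext i
  unfold rc
  rw [Pi.add_apply, Pi.smul_apply]
  push_cast
  have : ((2 : ℤ) • k i : ℤ) = 2 * k i := by rw [smul_eq_mul]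
  rw [this]
  push_cast
  have h2 : (2 : ZMod 2) = 0 := rfl
  rw [h2, zero_mul, add_zero]

theorem rc_surj (σ : Fin g → ZMod 2) : ∃ s : Lat g, rc s = σ := by
  refine ⟨fun i => ((σ i).val : ℤ), ?_⟩
  funext i
  unfold rc
  push_cast
  exact ZMod.natCast_zmod_val (σ i)

theorem qp_rc (c : (Fin g → ZMod 2) → ℂ) : QP 2 0 (fun s : Lat g => c (rc s)) := by
  intro s k
  have h0 : dot k (0 : Sp g) = 0 := by
    unfold dot
    simp
  simp only [rc_add, h0, mul_zero, Complex.exp_zero, one_mul]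

theorem cf_eq (u : Sp g) (B : Matrix (Fin g) (Fin g) ℂ) (σ : Fin g → ZMod 2) (s : Lat g) :
    cf u B σ s = co B 2 (fun s => if rc s = σ then 1 else 0) s *
      Complex.exp (2 * Real.pi * dot s u) := by
  unfold cf co
  have : (fun i => ((s i : ℤ) : ZMod 2)) = rc s := rfl
  rw [this]
  by_cases h : rc s = σ
  · rw [if_pos h]
    simp only [h, if_true, one_mul]
    rw [← Complex.exp_add]
    congr 1
    push_cast
    ring
  · rw [if_neg h]
    simp only [h, if_false, zero_mul]

theorem eval_lf (w : Sp g) (k : ℕ) (s : Lat g) :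
    MvPolynomial.eval (fun i => (s i : ℂ)) (lf w ^ k) = dot s w ^ k := by
  rw [map_pow]
  congr 1
  unfold lf dot
  rw [map_sum]
  refine Finset.sum_congr rfl fun i _ => ?_
  rw [map_mul, MvPolynomial.eval_C, MvPolynomial.eval_X, mul_comm]

theorem deg_lf (w : Sp g) (k : ℕ) : (lf w ^ k).totalDegree ≤ k := by
  refine (MvPolynomial.totalDegree_pow _ _).trans ?_
  have h : (lf w).totalDegree ≤ 1 := by
    unfold lf
    refine MvPolynomial.totalDegree_finsetSum_le fun i _ => ?_
    refine (MvPolynomial.totalDegree_mul _ _).trans ?_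
    rw [MvPolynomial.totalDegree_C, zero_add]
    exact (MvPolynomial.totalDegree_X _).le
  calc k * (lf w).totalDegree ≤ k * 1 := Nat.mul_le_mul_left k h
    _ = k := mul_one k

theorem sum_cf (hDEC : S_DEC) {B : Matrix (Fin g) (Fin g) ℂ} (hB : Pool.Agent.Results.MP_e16cda_ag.ThreeMomentsFail.IsParameter B) (u : Sp g)
    (c : (Fin g → ZMod 2) → ℂ) (w : Sp g) (k : ℕ) :
    Fs (dv w k (co B 2 fun s => c (rc s))) u =
      (2 * Real.pi) ^ k * ∑ σ, c σ * ml (cf u B σ) (lf w ^ k) := by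
  have hterm : ∀ σ : Fin g → ZMod 2, ∀ s : Lat g, (2 * (Real.pi : ℂ)) ^ k *
      (cf u B σ s * MvPolynomial.eval (fun i => (s i : ℂ)) (lf w ^ k)) =
      dv w k (co B 2 fun s => if rc s = σ then 1 else 0) s *
        Complex.exp (2 * Real.pi * dot s u) := by
    intro σ s
    rw [cf_eq, eval_lf]
    unfold dv
    rw [mul_pow]
    ring
  have hsum : ∀ σ : Fin g → ZMod 2, Summable fun s : Lat g => (2 * (Real.pi : ℂ)) ^ k *
      (cf u B σ s * MvPolynomial.eval (fun i => (s i : ℂ)) (lf w ^ k)) := by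
    intro σ
    simp_rw [hterm σ]
    exact summable_Fs (s_DV g _ (hDEC g B hB 2 (by norm_num) 0 _
      (qp_rc fun τ => if τ = σ then 1 else 0)) w k) u
  have h1 : ∀ σ : Fin g → ZMod 2, (2 * (Real.pi : ℂ)) ^ k * (c σ * ml (cf u B σ) (lf w ^ k)) =
      ∑' s : Lat g, c σ * ((2 * (Real.pi : ℂ)) ^ k *
        (cf u B σ s * MvPolynomial.eval (fun i => (s i : ℂ)) (lf w ^ k))) := by
    intro σ
    rw [tsum_mul_left, tsum_mul_left]
    unfold ml
    ring
  rw [Finset.mul_sum, Finset.sum_congr rfl fun σ _ => h1 σ,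
    ← Summable.tsum_finsetSum fun σ _ => (hsum σ).mul_left (c σ)]
  unfold Fs
  refine tsum_congr fun s => ?_
  rw [Finset.sum_eq_single (rc s)]
  · rw [hterm]
    unfold dv co
    simp only [if_true]
    ring
  · intro σ _ hσ
    rw [hterm]
    unfold dv co
    simp only [if_neg (Ne.symm hσ)]
    ring
  · intro h
    exact absurd (Finset.mem_univ _) h

theorem s_IDP (hDEC : S_DEC) (hTAY : S_TAY) (hUNI : S_UNI) (hMB : S_MB) : S_IDP := by
  intro g B hg hB u c hc
  have hD := hDEC g B hB 2 (by norm_num) 0 _ (qp_rc c)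
  have hf : ∀ x, Fs (co B 2 fun s => c (rc s)) x = 0 := by
    refine hMB g B hg hB _ u ⟨_, qp_rc c, rfl⟩ (fun w => ?_)
    obtain ⟨K, hK⟩ := hTAY g _ hD u w (Kg g + 1)
    refine ⟨K, fun t ht => ?_⟩
    have h1 := hK t ht
    rw [Finset.sum_eq_zero, sub_zero] at h1
    · exact h1
    · intro k hk
      rw [sum_cf hDEC hB, hc _ ((deg_lf w k).trans (Nat.lt_succ_iff.1 (Finset.mem_range.1 hk))),
        mul_zero, mul_zero]
  have h0 := hUNI g _ hD hf
  funext σ
  obtain ⟨s, hs⟩ := rc_surj σ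
  have h2 := congrFun h0 s
  have h3 := (mul_eq_zero.1 h2).resolve_right (Complex.exp_ne_zero _)
  have h4 : c (rc s) = 0 := h3
  rwa [hs] at h4

end Pool.Agent.L7h21.TH
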