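import Pool.Agent.L7h93.TH.Stm

/-! [TAY] of project TH (helper93): derivatives and the Taylor formula. -/

set_option autoImplicit false

namespace Pool.Agent.L7h21.TH

open Pool.Agent.L7h93.TH Finset

variable {g : ℕ}

theorem sz_nonneg (s : Lat g) : 0 ≤ sz s := Finset.sum_nonneg fun _ _ => abs_nonneg _

/-- the norm of a vector -/
noncomputable def nw (w : Sp g) : ℝ := ∑ i, ‖w i‖

theorem nw_nonneg (w : Sp g) : 0 ≤ nw w := Finset.sum_nonneg fun _ _ => norm_nonneg _

theorem dot_le (s : Lat g) (w : Sp g) : ‖dot s w‖ ≤ nw w * sz s := by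
  unfold dot
  refine (norm_sum_le _ _).trans ?_
  unfold sz
  rw [Finset.mul_sum]
  refine Finset.sum_le_sum fun i _ => ?_
  rw [norm_mul, Complex.norm_intCast, mul_comm]
  refine mul_le_mul_of_nonneg_right ?_ (abs_nonneg _)
  exact Finset.single_le_sum (f := fun i => ‖w i‖) (fun i _ => norm_nonneg _) (Finset.mem_univ i)

theorem zs_le (s : Lat g) (w : Sp g) : ‖2 * (Real.pi : ℂ) * dot s w‖ ≤ 2 * Real.pi * nw w * sz s := by
  rw [norm_mul, norm_mul, Complex.norm_real, Real.norm_eq_abs, abs_of_pos Real.pi_pos]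
  have h := dot_le s w
  have h2 : ‖(2 : ℂ)‖ = 2 := by norm_num
  rw [h2]
  have := mul_le_mul_of_nonneg_left h (show 0 ≤ 2 * Real.pi by positivity)
  linarith

theorem pow_le_exp {y : ℝ} (hy : 0 ≤ y) (k : ℕ) : y ^ k ≤ k.factorial * Real.exp y := by
  have h := Real.pow_div_factorial_le_exp y hy k
  rw [div_le_iff₀ (by positivity)] at h
  linarith

/-- comparison -/
theorem dec_of_le {c c' : Lat g → ℂ} (hc : Dec c) (K A₀ : ℝ)
    (h : ∀ s, ‖c' s‖ ≤ K * (‖c s‖ * Real.exp (A₀ * sz s))) : Dec c' := by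
  intro A
  refine Summable.of_nonneg_of_le (fun s => by positivity) (fun s => ?_) ((hc (A₀ + A)).mul_left K)
  calc ‖c' s‖ * Real.exp (A * sz s) ≤ K * (‖c s‖ * Real.exp (A₀ * sz s)) * Real.exp (A * sz s) :=
        mul_le_mul_of_nonneg_right (h s) (Real.exp_nonneg _)
    _ = K * (‖c s‖ * Real.exp ((A₀ + A) * sz s)) := by
        rw [add_mul, Real.exp_add]; ring

theorem s_DV : S_DV := by
  intro g c hc w k
  refine dec_of_le hc (k.factorial) (2 * Real.pi * nw w) (fun s => ?_)
  unfold dv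
  rw [norm_mul, norm_pow]
  have h1 := pow_le_pow_left₀ (norm_nonneg _) (zs_le s w) k
  have h2 := pow_le_exp (y := 2 * Real.pi * nw w * sz s)
    (mul_nonneg (mul_nonneg (by positivity) (nw_nonneg w)) (sz_nonneg s)) k
  calc ‖2 * (Real.pi : ℂ) * dot s w‖ ^ k * ‖c s‖ ≤
        (k.factorial * Real.exp (2 * Real.pi * nw w * sz s)) * ‖c s‖ :=
        mul_le_mul_of_nonneg_right (h1.trans h2) (norm_nonneg _)
    _ = _ := by ring

theorem dot_add (s : Lat g) (x y : Sp g) : dot s (x + y) = dot s x + dot s y := by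
  unfold dot
  rw [← Finset.sum_add_distrib]
  exact Finset.sum_congr rfl fun i _ => by rw [Pi.add_apply]; ring

theorem dot_smul (s : Lat g) (t : ℂ) (y : Sp g) : dot s (t • y) = t * dot s y := by
  unfold dot
  rw [Finset.mul_sum]
  exact Finset.sum_congr rfl fun i _ => by rw [Pi.smul_apply, smul_eq_mul]; ring

/-- the series converge absolutely -/
theorem summable_Fs {c : Lat g → ℂ} (hc : Dec c) (x : Sp g) :
    Summable fun s => c s * Complex.exp (2 * Real.pi * dot s x) := by
  refine Summable.of_norm_bounded (hc (2 * Real.pi * nw x)) (fun s => ?_)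
  rw [norm_mul]
  refine mul_le_mul_of_nonneg_left ?_ (norm_nonneg _)
  rw [Complex.norm_exp]
  exact Real.exp_le_exp.2 ((Complex.re_le_norm _).trans (zs_le s x))

theorem s_TAY : S_TAY := by
  intro g c hc x w M
  have hS : Summable fun s : Lat g => ‖c s * Complex.exp (2 * Real.pi * dot s x)‖ *
      (‖2 * (Real.pi : ℂ) * dot s w‖ ^ M * Real.exp ‖2 * (Real.pi : ℂ) * dot s w‖) := by
    refine Summable.of_nonneg_of_le (fun s => by positivity) (fun s => ?_)
      ((hc (2 * Real.pi * nw x + (2 * Real.pi * nw w + 2 * Real.pi * nw w))).mul_left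
        (M.factorial : ℝ))
    have h1 : ‖Complex.exp (2 * Real.pi * dot s x)‖ ≤ Real.exp (2 * Real.pi * nw x * sz s) := by
      rw [Complex.norm_exp]
      exact Real.exp_le_exp.2 ((Complex.re_le_norm _).trans (zs_le s x))
    have h2 : ‖2 * (Real.pi : ℂ) * dot s w‖ ^ M ≤
        M.factorial * Real.exp (2 * Real.pi * nw w * sz s) :=
      (pow_le_pow_left₀ (norm_nonneg _) (zs_le s w) M).trans (pow_le_exp
        (mul_nonneg (mul_nonneg (by positivity) (nw_nonneg w)) (sz_nonneg s)) M)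
    have h3 : Real.exp ‖2 * (Real.pi : ℂ) * dot s w‖ ≤ Real.exp (2 * Real.pi * nw w * sz s) :=
      Real.exp_le_exp.2 (zs_le s w)
    rw [norm_mul]
    calc ‖c s‖ * ‖Complex.exp (2 * Real.pi * dot s x)‖ *
        (‖2 * (Real.pi : ℂ) * dot s w‖ ^ M * Real.exp ‖2 * (Real.pi : ℂ) * dot s w‖) ≤
        ‖c s‖ * Real.exp (2 * Real.pi * nw x * sz s) *
          ((M.factorial * Real.exp (2 * Real.pi * nw w * sz s)) *
            Real.exp (2 * Real.pi * nw w * sz s)) := by gcongr
      _ = _ := by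
        rw [add_mul, add_mul, Real.exp_add, Real.exp_add]; ring
  refine ⟨∑' s : Lat g, ‖c s * Complex.exp (2 * Real.pi * dot s x)‖ *
      (‖2 * (Real.pi : ℂ) * dot s w‖ ^ M * Real.exp ‖2 * (Real.pi : ℂ) * dot s w‖), fun t ht => ?_⟩
  have e1 : Fs c (x + t • w) - ∑ k ∈ range M, t ^ k / (k.factorial : ℂ) * Fs (dv w k c) x =
      ∑' s : Lat g, (c s * Complex.exp (2 * Real.pi * dot s x)) *
        (Complex.exp (t * (2 * Real.pi * dot s w)) -
          ∑ k ∈ range M, (t * (2 * Real.pi * dot s w)) ^ k / (k.factorial : ℂ)) := by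
    have a1 : Fs c (x + t • w) = ∑' s : Lat g, (c s * Complex.exp (2 * Real.pi * dot s x)) *
        Complex.exp (t * (2 * Real.pi * dot s w)) := by
      unfold Fs
      refine tsum_congr fun s => ?_
      rw [dot_add, dot_smul, mul_assoc (c s), ← Complex.exp_add]
      congr 2
      ring
    have a2 : ∀ k ∈ range M, t ^ k / (k.factorial : ℂ) * Fs (dv w k c) x =
        ∑' s : Lat g, (c s * Complex.exp (2 * Real.pi * dot s x)) *
          ((t * (2 * Real.pi * dot s w)) ^ k / (k.factorial : ℂ)) := by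
      intro k _
      unfold Fs
      rw [← tsum_mul_left]
      refine tsum_congr fun s => ?_
      unfold dv
      rw [mul_pow]
      ring
    have b1 : Summable fun s : Lat g => (c s * Complex.exp (2 * Real.pi * dot s x)) *
        Complex.exp (t * (2 * Real.pi * dot s w)) := by
      refine (summable_Fs hc (x + t • w)).congr fun s => ?_
      rw [dot_add, dot_smul, mul_assoc (c s), ← Complex.exp_add]
      congr 2
      ring
    have b2 : ∀ k ∈ range M, Summable fun s : Lat g => (c s *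
        Complex.exp (2 * Real.pi * dot s x)) *
          ((t * (2 * Real.pi * dot s w)) ^ k / (k.factorial : ℂ)) := by
      intro k _
      refine ((summable_Fs (s_DV g c hc w k) x).mul_left (t ^ k / (k.factorial : ℂ))).congr
        fun s => ?_
      unfold dv
      rw [mul_pow]
      ring
    rw [a1, Finset.sum_congr rfl a2, ← Summable.tsum_finsetSum b2,
      ← Summable.tsum_sub b1 (summable_sum b2)]
    refine tsum_congr fun s => ?_
    rw [mul_sub, Finset.mul_sum]
  have hb : ∀ s : Lat g, ‖(c s * Complex.exp (2 * Real.pi * dot s x)) *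
        (Complex.exp (t * (2 * Real.pi * dot s w)) -
          ∑ k ∈ range M, (t * (2 * Real.pi * dot s w)) ^ k / (k.factorial : ℂ))‖ ≤
      ‖t‖ ^ M * (‖c s * Complex.exp (2 * Real.pi * dot s x)‖ *
      (‖2 * (Real.pi : ℂ) * dot s w‖ ^ M * Real.exp ‖2 * (Real.pi : ℂ) * dot s w‖)) := by
    intro s
    rw [norm_mul]
    have h1 := Complex.norm_exp_sub_sum_le_norm_mul_exp (t * (2 * Real.pi * dot s w)) M
    have h2 : ‖t * (2 * Real.pi * dot s w)‖ ≤ ‖2 * (Real.pi : ℂ) * dot s w‖ := by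
      rw [norm_mul]
      exact mul_le_of_le_one_left (norm_nonneg _) ht
    have h3 := Real.exp_le_exp.2 h2
    have h4 : ‖t * (2 * Real.pi * dot s w)‖ ^ M = ‖t‖ ^ M * ‖2 * (Real.pi : ℂ) * dot s w‖ ^ M := by
      rw [norm_mul, mul_pow]
    calc _ ≤ ‖c s * Complex.exp (2 * Real.pi * dot s x)‖ *
          (‖t * (2 * Real.pi * dot s w)‖ ^ M * Real.exp ‖t * (2 * Real.pi * dot s w)‖) :=
          mul_le_mul_of_nonneg_left h1 (norm_nonneg _)
      _ ≤ ‖c s * Complex.exp (2 * Real.pi * dot s x)‖ *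
          (‖t‖ ^ M * ‖2 * (Real.pi : ℂ) * dot s w‖ ^ M *
            Real.exp ‖2 * (Real.pi : ℂ) * dot s w‖) := by
          rw [h4]
          gcongr
      _ = _ := by ring
  have hbs := Summable.of_nonneg_of_le (fun s => norm_nonneg _) hb (hS.mul_left (‖t‖ ^ M))
  rw [e1, mul_comm (∑' s : Lat g, ‖c s * Complex.exp (2 * Real.pi * dot s x)‖ *
      (‖2 * (Real.pi : ℂ) * dot s w‖ ^ M * Real.exp ‖2 * (Real.pi : ℂ) * dot s w‖)),
    ← tsum_mul_left]
  exact (norm_tsum_le_tsum_norm hbs).trans (Summable.tsum_le_tsum hb hbs (hS.mul_left (‖t‖ ^ M)))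

theorem dv_zero (w : Sp g) (c : Lat g → ℂ) : dv w 0 c = c := by
  funext s
  unfold dv
  rw [pow_zero, one_mul]

theorem s_DER : S_DER := by
  intro g c hc x w t₀
  obtain ⟨K, hK⟩ := s_TAY g c hc (x + t₀ • w) w 2
  rw [hasDerivAt_iff_isLittleO_nhds_zero]
  have h1 : (fun h : ℂ => Fs c (x + (t₀ + h) • w) - Fs c (x + t₀ • w) -
      h • Fs (dv w 1 c) (x + t₀ • w)) =O[nhds 0] fun h : ℂ => h ^ 2 := by
    refine Asymptotics.IsBigO.of_bound K ?_
    filter_upwards [Metric.closedBall_mem_nhds (0 : ℂ) one_pos] with h hh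
    rw [mem_closedBall_zero_iff] at hh
    have h2 := hK h hh
    rw [Finset.sum_range_succ, Finset.sum_range_one, dv_zero] at h2
    rw [norm_pow]
    refine le_trans (le_of_eq ?_) h2
    congr 1
    rw [add_smul, ← add_assoc, smul_eq_mul]
    simp
    ring
  refine h1.trans_isLittleO ?_
  exact Asymptotics.isLittleO_pow_id (by norm_num)

end Pool.Agent.L7h21.TH
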